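import Pool.Agent.Helper533.Deny.Final

/-!
# MP_9b58c5_an: every `𝒜`-polar `G_δ` set is an infinity set

Proof: modules of helper533 (`Pool.Agent.Helper533.Deny`).
-/

open MeasureTheory Filter Topology Set

namespace Pool.Agent.Results.MP_9b58c5_an.InfinitySets

open Pool.Agent.Helper533

/-- **Full answer to Q1 (affirmative).** For every `1 < p < ∞`, every `p`-admissible measure
`dμ = w dx` on `ℝⁿ`, `n ≥ 1`, every operator `𝒜` satisfying the structure conditions and every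
`𝒜`-polar `G_δ` set `E` there is an `𝒜`-superharmonic function `u` on `ℝⁿ` with
`E = {x : u x = ∞}`. -/
theorem result (n : ℕ) (hn : 1 ≤ n) (p α β : ℝ) (hp : 1 < p) (w : Polar.Stmt.Sp n → ℝ)
    (hw : Deny.IsAdmissible p w) (𝒜 : Polar.Stmt.Sp n → Polar.Stmt.Sp n → Polar.Stmt.Sp n)
    (hA : Polar.Stmt.IsOperator p α β w 𝒜) (E : Set (Polar.Stmt.Sp n)) (hE : IsGδ E)
    (hpol : Deny.IsPolar 𝒜 p w E) :
    ∃ u : Polar.Stmt.Sp n → EReal, Deny.IsSuperharmonic 𝒜 p w univ u ∧ E = {x | u x = ⊤} := by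
  obtain ⟨u, hu, h⟩ := Polar.deny_theorem hn hp hw hA hE hpol
  exact ⟨u, hu, h.symm⟩

end Pool.Agent.Results.MP_9b58c5_an.InfinitySets
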